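import Mathlib
import Pool.Agent.W49.Q2.Main2

/-!
# Every 2-queue graph is 7-colourable
-/

set_option autoImplicit false

namespace Pool.Agent.Results.MP_a4b273_co.SevenColours

/-- Every finite graph whose vertices can be ordered and whose edges can be split into two classes,
with no two strictly nested edges in the same class, is properly 7-colourable. -/
theorem result :
    ∀ (n : ℕ) (G : SimpleGraph (Fin n)),
      (∃ q : Fin n → Fin n → Fin 2,
        ∀ a b c d : Fin n, a < b → b < c → c < d →
          G.Adj a d → G.Adj b c → q a d ≠ q b c) →
      G.Colorable 7 :=
  fun n G h => Pool.Agent.W49.Q2.seven n G h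

end Pool.Agent.Results.MP_a4b273_co.SevenColours
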